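import Mathlib

set_option autoImplicit false

/-!
A regular graph with two disjoint maximal cliques whose complement has no two disjoint maximal
cliques.

Vertices: the 27 points `p : Fin 3 → Fin 3` and the 81 slots `(c, i, j)` with
`c i : Fin 3`, `j : Fin 9`.  For each `c` the slots `(c, i, j)` form a complete tripartite graph
with parts indexed by `i`; a point `p` is joined to the slots `(c, p c, j)`; there are no other
edges.
-/

namespace Pool.Agent.Results.MP_7a760c_co.BlockCounterexample

/-- The vertex set: 27 points and 81 slots. -/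
abbrev V : Type := (Fin 3 → Fin 3) ⊕ (Fin 3 × Fin 3 × Fin 9)

/-- The adjacency relation: points are pairwise nonadjacent; the point `p` is adjacent to the slot
`(c, i, j)` iff `p c = i`; the slots `(c, i, j)` and `(c', i', j')` are adjacent iff `c = c'` and
`i ≠ i'`. -/
def adj : V → V → Prop
  | Sum.inl _, Sum.inl _ => False
  | Sum.inl p, Sum.inr x => p x.1 = x.2.1
  | Sum.inr x, Sum.inl p => p x.1 = x.2.1
  | Sum.inr x, Sum.inr y => x.1 = y.1 ∧ x.2.1 ≠ y.2.1

instance : DecidableRel adj := fun a b => by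
  rcases a with p | x <;> rcases b with q | y <;> simp only [adj] <;> infer_instance

/-- The graph. -/
def G : SimpleGraph V where
  Adj := adj
  symm := ⟨by
    rintro (p | x) (q | y) h
    · exact h
    · exact h
    · exact h
    · exact ⟨h.1.symm, h.2.symm⟩⟩
  loopless := ⟨by
    rintro (p | x) h
    · exact h
    · exact h.2 rfl⟩

instance : DecidableRel G.Adj := inferInstanceAs (DecidableRel adj)

theorem regular : G.IsRegularOfDegree 27 := by
  unfold SimpleGraph.IsRegularOfDegree
  decide +kernel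

/-- The triangle formed by the slots `(0, i, j)`, `i : Fin 3`. -/
def triangle (j : Fin 9) : Set V := {v | ∃ i : Fin 3, v = Sum.inr (0, i, j)}

theorem triangle_clique (j : Fin 9) : G.IsClique (triangle j) := by
  rintro _ ⟨i, rfl⟩ _ ⟨i', rfl⟩ hne
  refine ⟨rfl, ?_⟩
  intro h
  apply hne
  simp only at h
  rw [h]

theorem triangle_maximal (j : Fin 9) : Maximal G.IsClique (triangle j) := by
  rw [SimpleGraph.isMaximalClique_iff]
  refine ⟨triangle_clique j, ?_⟩
  intro t ht hsub v hv
  have h0 : (Sum.inr (0, 0, j) : V) ∈ t := hsub ⟨0, rfl⟩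
  have h1 : (Sum.inr (0, 1, j) : V) ∈ t := hsub ⟨1, rfl⟩
  have h2 : (Sum.inr (0, 2, j) : V) ∈ t := hsub ⟨2, rfl⟩
  by_contra hcon
  have hne : ∀ i : Fin 3, v ≠ Sum.inr (0, i, j) := fun i h => hcon ⟨i, h⟩
  have a0 : adj v (Sum.inr (0, 0, j)) := ht hv h0 (hne 0)
  have a1 : adj v (Sum.inr (0, 1, j)) := ht hv h1 (hne 1)
  have a2 : adj v (Sum.inr (0, 2, j)) := ht hv h2 (hne 2)
  rcases v with p | ⟨c, i, k⟩
  · have e0 : p 0 = 0 := a0
    have e1 : p 0 = 1 := a1
    rw [e0] at e1
    exact absurd e1 (by decide)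
  · have e0 : i ≠ 0 := a0.2
    have e1 : i ≠ 1 := a1.2
    have e2 : i ≠ 2 := a2.2
    fin_cases i
    · exact e0 rfl
    · exact e1 rfl
    · exact e2 rfl

theorem two_disjoint_cliques :
    ∃ A B : Set V, Maximal G.IsClique A ∧ Maximal G.IsClique B ∧ Disjoint A B := by
  refine ⟨triangle 0, triangle 1, triangle_maximal 0, triangle_maximal 1, ?_⟩
  rw [Set.disjoint_left]
  rintro v ⟨i, rfl⟩ ⟨i', h⟩
  have h' := Sum.inr_injective h
  simp only [Prod.mk.injEq] at h'
  exact absurd h'.2.2 (by decide)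

/-- An independent set meets each complete tripartite block in at most one part; so for two
independent sets and each block there is a part met by neither. -/
theorem free_part {A B : Set V} (hA : G.IsIndepSet A) (hB : G.IsIndepSet B) (c : Fin 3) :
    ∃ i : Fin 3, ∀ j : Fin 9,
      (Sum.inr (c, i, j) : V) ∉ A ∧ (Sum.inr (c, i, j) : V) ∉ B := by
  -- an independent set meets at most one part
  have key : ∀ {S : Set V}, G.IsIndepSet S →
      ∃ a : Fin 3, ∀ i : Fin 3, i ≠ a → ∀ j : Fin 9, (Sum.inr (c, i, j) : V) ∉ S := by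
    intro S hS
    by_cases h : ∃ i : Fin 3, ∃ j : Fin 9, (Sum.inr (c, i, j) : V) ∈ S
    · obtain ⟨a, j, haj⟩ := h
      refine ⟨a, fun i hi k hk => ?_⟩
      have hne : (Sum.inr (c, i, k) : V) ≠ Sum.inr (c, a, j) := by
        intro h
        have h' := Sum.inr_injective h
        simp only [Prod.mk.injEq] at h'
        exact hi h'.2.1
      exact hS hk haj hne ⟨rfl, hi⟩
    · push Not at h
      exact ⟨0, fun i _ j => h i j⟩
  obtain ⟨a, ha⟩ := key hA
  obtain ⟨b, hb⟩ := key hB
  have hthird : ∀ a b : Fin 3, ∃ i : Fin 3, i ≠ a ∧ i ≠ b := by decide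
  have : ∃ i : Fin 3, i ≠ a ∧ i ≠ b := hthird a b
  obtain ⟨i, hia, hib⟩ := this
  exact ⟨i, fun j => ⟨ha i hia j, hb i hib j⟩⟩

theorem mem_of_free {A : Set V} (hA : Maximal G.IsIndepSet A) (z : Fin 3 → Fin 3)
    (hz : ∀ (c : Fin 3) (j : Fin 9), (Sum.inr (c, z c, j) : V) ∉ A) : (Sum.inl z : V) ∈ A := by
  rw [SimpleGraph.isMaximalIndepSet_iff] at hA
  obtain ⟨hind, hmax⟩ := hA
  have hno : ∀ w ∈ A, ¬ G.Adj (Sum.inl z) w := by
    rintro (p | ⟨c, i, j⟩) hw hadj
    · exact hadj
    · have h : z c = i := hadj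
      exact hz c j (h ▸ hw)
  refine hmax (insert (Sum.inl z) A) ?_ (Set.subset_insert _ _) (Set.mem_insert _ _)
  intro x hx y hy hne
  rcases Set.mem_insert_iff.1 hx with rfl | hx'
  · rcases Set.mem_insert_iff.1 hy with rfl | hy'
    · exact absurd rfl hne
    · exact hno y hy'
  · rcases Set.mem_insert_iff.1 hy with rfl | hy'
    · exact fun h => hno x hx' h.symm
    · exact hind hx' hy' hne

theorem indep_meet {A B : Set V} (hA : Maximal G.IsIndepSet A) (hB : Maximal G.IsIndepSet B) :
    (A ∩ B).Nonempty := by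
  choose z hz using free_part hA.prop hB.prop
  exact ⟨Sum.inl z, mem_of_free hA z fun c j => (hz c j).1, mem_of_free hB z fun c j => (hz c j).2⟩

theorem maximal_compl_iff {s : Set V} :
    Maximal Gᶜ.IsClique s ↔ Maximal G.IsIndepSet s := by
  simp [SimpleGraph.isMaximalIndepSet_iff, SimpleGraph.isMaximalClique_iff]

/-- There is a finite regular graph `G` with at least one edge (`27`-regular on `108` vertices)
which has two disjoint maximal cliques, while its complement has no two disjoint maximal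
cliques. -/
theorem result :
    ∃ (V : Type) (_ : Fintype V) (_ : DecidableEq V) (G : SimpleGraph V) (_ : DecidableRel G.Adj),
      Fintype.card V = 108 ∧ G.IsRegularOfDegree 27 ∧ G ≠ ⊥ ∧
      (∃ A B : Set V, Maximal G.IsClique A ∧ Maximal G.IsClique B ∧ Disjoint A B) ∧
      ¬ ∃ A B : Set V, Maximal Gᶜ.IsClique A ∧ Maximal Gᶜ.IsClique B ∧ Disjoint A B := by
  refine ⟨V, inferInstance, inferInstance, G, inferInstance, ?_, regular, ?_,
    two_disjoint_cliques, ?_⟩
  · simp [V]
  · intro h
    have h1 : G.Adj (Sum.inr (0, 0, 0)) (Sum.inr (0, 1, 0)) := ⟨rfl, by decide⟩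
    rw [h] at h1
    exact h1
  · rintro ⟨A, B, hA, hB, hd⟩
    obtain ⟨x, hxA, hxB⟩ := indep_meet (maximal_compl_iff.1 hA) (maximal_compl_iff.1 hB)
    exact Set.disjoint_left.1 hd hxA hxB

end Pool.Agent.Results.MP_7a760c_co.BlockCounterexample
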